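import Pool.Agent.Lib.MP_ba0fa5_ag.Iface
import Pool.Agent.Lib.MP_1c35f4_nt.Tilt

/-!
# Project SSG, module NE: the pairs with `(n, v) = (n', v')`, `u ≠ u'`
-/

set_option autoImplicit false

namespace Pool.Agent.Lib.MP_ba0fa5_ag.H19

open Finset

/-- the harmonic sum -/
noncomputable def Hs (N : ℕ) : ℝ := ∑ j ∈ Finset.Icc 1 N, (1 : ℝ) / j

lemma Hs_nonneg (N : ℕ) : 0 ≤ Hs N := Finset.sum_nonneg fun _ _ => by positivity

lemma Hs_le (N : ℕ) : Hs N ≤ 1 + Real.log N := by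
  have h := harmonic_le_one_add_log N
  rw [harmonic_eq_sum_Icc] at h
  push_cast at h
  refine le_trans (le_of_eq ?_) h
  exact Finset.sum_congr rfl fun j _ => by rw [one_div]

/-- for a fixed modulus -/
lemma sum_fixed (g u N : ℕ) (hg : 1 ≤ g) :
    ∑ u' ∈ (Finset.Ioc u N).filter (fun u' => g ∣ u' - u), (g : ℝ) / u' ≤ Hs N := by
  classical
  have hinj : Set.InjOn (fun u' => (u' - u) / g)
      ((Finset.Ioc u N).filter (fun u' => g ∣ u' - u) : Finset ℕ) := by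
    intro a ha b hb hab
    rw [Finset.mem_coe, Finset.mem_filter, Finset.mem_Ioc] at ha hb
    obtain ⟨⟨ha1, ha2⟩, c, hc⟩ := ha
    obtain ⟨⟨hb1, hb2⟩, e, he⟩ := hb
    simp only [hc, he, Nat.mul_div_cancel_left _ hg] at hab
    subst hab
    omega
  calc ∑ u' ∈ (Finset.Ioc u N).filter (fun u' => g ∣ u' - u), (g : ℝ) / u'
      ≤ ∑ u' ∈ (Finset.Ioc u N).filter (fun u' => g ∣ u' - u),
          (1 : ℝ) / (((u' - u) / g : ℕ) : ℝ) := by
        refine Finset.sum_le_sum fun u' hu' => ?_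
        rw [Finset.mem_filter, Finset.mem_Ioc] at hu'
        obtain ⟨⟨h1, h2⟩, c, hc⟩ := hu'
        rw [hc, Nat.mul_div_cancel_left _ hg]
        have hc0 : 0 < c := by
          rcases Nat.eq_zero_or_pos c with h | h
          · subst h; omega
          · exact h
        have hgR : (0 : ℝ) < g := by exact_mod_cast hg
        have hcR : (0 : ℝ) < c := by exact_mod_cast hc0
        have huR : (0 : ℝ) < u' := by
          have : 0 < u' := by omega
          exact_mod_cast this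
        rw [div_le_div_iff₀ huR hcR, one_mul]
        have : g * c ≤ u' := by omega
        exact_mod_cast this
    _ = ∑ j ∈ ((Finset.Ioc u N).filter (fun u' => g ∣ u' - u)).image
          (fun u' => (u' - u) / g), (1 : ℝ) / j := by
        rw [Finset.sum_image hinj]
    _ ≤ Hs N := by
        refine Finset.sum_le_sum_of_subset_of_nonneg ?_ fun _ _ _ => by positivity
        intro j hj
        rw [Finset.mem_image] at hj
        obtain ⟨u', hu', rfl⟩ := hj
        rw [Finset.mem_filter, Finset.mem_Ioc] at hu'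
        obtain ⟨⟨h1, h2⟩, c, hc⟩ := hu'
        rw [hc, Nat.mul_div_cancel_left _ hg, Finset.mem_Icc]
        have hc0 : 0 < c := by
          rcases Nat.eq_zero_or_pos c with h | h
          · subst h; omega
          · exact h
        refine ⟨hc0, ?_⟩
        have : c ≤ g * c := Nat.le_mul_of_pos_left _ hg
        omega

lemma gcd_dvd_sub {A u u' : ℕ} (hu : u ≤ u') (h1 : 1 ≤ A * u) :
    (A * u - 1).gcd (A * u' - 1) ∣ u' - u := by
  have hA : A * u ≤ A * u' := Nat.mul_le_mul_left _ hu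
  set g := (A * u - 1).gcd (A * u' - 1) with hg
  have h2 : g ∣ A * u - 1 := Nat.gcd_dvd_left _ _
  have h3 : g ∣ A * u' - 1 := Nat.gcd_dvd_right _ _
  have h4 : g ∣ A * (u' - u) := by
    have := Nat.dvd_sub h3 h2
    have e : A * u' - 1 - (A * u - 1) = A * (u' - u) := by
      rw [Nat.mul_sub]; omega
    rwa [e] at this
  have h5 : Nat.Coprime g A := by
    rw [Nat.coprime_iff_gcd_eq_one]
    have h6 : g.gcd A ∣ A * u - 1 := (Nat.gcd_dvd_left _ _).trans h2
    have h7 : g.gcd A ∣ A * u := (Nat.gcd_dvd_right _ _).trans (Dvd.intro _ rfl)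
    have h8 : g.gcd A ∣ 1 := by
      have := Nat.dvd_sub h7 h6
      have e : A * u - (A * u - 1) = 1 := by omega
      rwa [e] at this
    exact Nat.dvd_one.1 h8
  exact h5.dvd_of_dvd_mul_left h4

lemma sum_inner (A u N : ℕ) (h1 : 2 ≤ A * u) :
    ∑ u' ∈ Finset.Ioc u N, (((A * u - 1).gcd (A * u' - 1) : ℕ) : ℝ) / u' ≤
      ((A * u - 1).divisors.card : ℝ) * Hs N := by
  classical
  calc ∑ u' ∈ Finset.Ioc u N, (((A * u - 1).gcd (A * u' - 1) : ℕ) : ℝ) / u'
      ≤ ∑ u' ∈ Finset.Ioc u N, ∑ g ∈ (A * u - 1).divisors,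
          (if g ∣ u' - u then (g : ℝ) / u' else 0) := by
        refine Finset.sum_le_sum fun u' hu' => ?_
        rw [Finset.mem_Ioc] at hu'
        have hg : (A * u - 1).gcd (A * u' - 1) ∈ (A * u - 1).divisors := by
          rw [Nat.mem_divisors]
          exact ⟨Nat.gcd_dvd_left _ _, by omega⟩
        refine le_trans (le_of_eq ?_) (Finset.single_le_sum (f := fun g : ℕ =>
          (if g ∣ u' - u then (g : ℝ) / u' else 0)) (fun g _ => ?_) hg)
        · rw [if_pos (gcd_dvd_sub hu'.1.le (by omega))]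
        · split_ifs
          · positivity
          · exact le_rfl
    _ = ∑ g ∈ (A * u - 1).divisors, ∑ u' ∈ (Finset.Ioc u N).filter (fun u' => g ∣ u' - u),
          (g : ℝ) / u' := by
        rw [Finset.sum_comm]
        exact Finset.sum_congr rfl fun g _ => by rw [Finset.sum_filter]
    _ ≤ ∑ g ∈ (A * u - 1).divisors, Hs N :=
        Finset.sum_le_sum fun g hg => sum_fixed g u N (Nat.pos_of_mem_divisors hg)
    _ = _ := by rw [Finset.sum_const, nsmul_eq_mul]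

lemma sum_pairs (A N : ℕ) (U : Finset ℕ) (D : ℝ) (hD0 : 0 ≤ D)
    (hU : ∀ u ∈ U, 1 ≤ u ∧ u ≤ N ∧ 2 ≤ A * u ∧ ((A * u - 1).divisors.card : ℝ) ≤ D) :
    ∑ w ∈ (U ×ˢ U).filter (fun w => w.1 ≠ w.2),
      (((A * w.1 - 1).gcd (A * w.2 - 1) : ℕ) : ℝ) / (w.1 * w.2) ≤ 2 * D * Hs N ^ 2 := by
  classical
  set f : ℕ → ℕ → ℝ := fun u u' => (((A * u - 1).gcd (A * u' - 1) : ℕ) : ℝ) / (u * u') with hf
  have hsymm : ∀ u u', f u u' = f u' u := by
    intro u u'
    simp only [hf]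
    rw [Nat.gcd_comm, mul_comm (u : ℝ)]
  have hf0 : ∀ u u', 0 ≤ f u u' := fun u u' => by positivity
  -- the half sum
  have half : ∑ u ∈ U, ∑ u' ∈ U, (if u < u' then f u u' else 0) ≤ D * Hs N ^ 2 := by
    calc ∑ u ∈ U, ∑ u' ∈ U, (if u < u' then f u u' else 0)
        ≤ ∑ u ∈ U, (1 : ℝ) / u * (D * Hs N) := by
          refine Finset.sum_le_sum fun u hu => ?_
          obtain ⟨h1, h2, h3, h4⟩ := hU u hu
          rw [← Finset.sum_filter]
          calc ∑ u' ∈ U.filter (fun u' => u < u'), f u u'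
              ≤ ∑ u' ∈ Finset.Ioc u N, f u u' := by
                refine Finset.sum_le_sum_of_subset_of_nonneg ?_ fun _ _ _ => hf0 _ _
                intro u' hu'
                rw [Finset.mem_filter] at hu'
                rw [Finset.mem_Ioc]
                exact ⟨hu'.2, (hU u' hu'.1).2.1⟩
            _ = (1 : ℝ) / u * ∑ u' ∈ Finset.Ioc u N,
                  (((A * u - 1).gcd (A * u' - 1) : ℕ) : ℝ) / u' := by
                rw [Finset.mul_sum]
                refine Finset.sum_congr rfl fun u' _ => ?_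
                simp only [hf]
                rw [div_mul_div_comm, one_mul]
            _ ≤ (1 : ℝ) / u * (((A * u - 1).divisors.card : ℝ) * Hs N) :=
                mul_le_mul_of_nonneg_left (sum_inner A u N h3) (by positivity)
            _ ≤ (1 : ℝ) / u * (D * Hs N) :=
                mul_le_mul_of_nonneg_left (mul_le_mul_of_nonneg_right h4 (Hs_nonneg N))
                  (by positivity)
      _ = (∑ u ∈ U, (1 : ℝ) / u) * (D * Hs N) := by rw [Finset.sum_mul]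
      _ ≤ Hs N * (D * Hs N) := by
          refine mul_le_mul_of_nonneg_right ?_ (mul_nonneg hD0 (Hs_nonneg N))
          refine Finset.sum_le_sum_of_subset_of_nonneg ?_ fun _ _ _ => by positivity
          intro u hu
          rw [Finset.mem_Icc]
          exact ⟨(hU u hu).1, (hU u hu).2.1⟩
      _ = D * Hs N ^ 2 := by ring
  rw [Finset.sum_filter, Finset.sum_product]
  calc ∑ u ∈ U, ∑ u' ∈ U, (if u ≠ u' then f u u' else 0)
      = ∑ u ∈ U, ∑ u' ∈ U, ((if u < u' then f u u' else 0) + (if u' < u then f u' u else 0)) := by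
        refine Finset.sum_congr rfl fun u _ => Finset.sum_congr rfl fun u' _ => ?_
        rcases lt_trichotomy u u' with h | h | h
        · rw [if_pos h.ne, if_pos h, if_neg h.asymm, add_zero]
        · subst h
          rw [if_neg (by simp), if_neg (lt_irrefl u), add_zero]
        · rw [if_pos h.ne', if_pos h, if_neg h.asymm, zero_add, hsymm]
    _ = ∑ u ∈ U, ∑ u' ∈ U, (if u < u' then f u u' else 0) +
        ∑ u ∈ U, ∑ u' ∈ U, (if u < u' then f u u' else 0) := by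
        simp only [Finset.sum_add_distrib]
        congr 1
        rw [Finset.sum_comm]
    _ ≤ 2 * D * Hs N ^ 2 := by linarith

lemma mem_qset {S : Set ℕ} {lo hi n : ℕ} (h : n ∈ qset S lo hi) : lo < n ∧ n ≤ hi := by
  classical
  unfold qset at h
  exact Finset.mem_Ioc.1 (Finset.mem_filter.1 h).1

lemma card_qset_le (S : Set ℕ) (lo hi : ℕ) : (qset S lo hi).card ≤ hi := by
  classical
  calc (qset S lo hi).card ≤ (Finset.Ioc lo hi).card := Finset.card_filter_le _ _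
    _ = hi - lo := Nat.card_Ioc _ _
    _ ≤ hi := Nat.sub_le _ _

lemma sum_inv_sq (S : Set ℕ) (Z M : ℕ) (hZ : 1 ≤ Z) :
    ∑ n ∈ qset S Z M, (1 : ℝ) / (n : ℝ) ^ 2 ≤ 1 / Z := by
  classical
  rcases le_or_gt Z M with h | h
  · calc ∑ n ∈ qset S Z M, (1 : ℝ) / (n : ℝ) ^ 2
        ≤ ∑ n ∈ Finset.Ioc Z M, (1 : ℝ) / (n : ℝ) ^ 2 :=
          Finset.sum_le_sum_of_subset_of_nonneg (fun n hn => Finset.mem_Ioc.2 (mem_qset hn))
            fun _ _ _ => by positivity
      _ = ∑ n ∈ Finset.Ioc Z M, ((n : ℝ) ^ 2)⁻¹ :=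
          Finset.sum_congr rfl fun n _ => by rw [one_div]
      _ ≤ (Z : ℝ)⁻¹ - (M : ℝ)⁻¹ := sum_Ioc_inv_sq_le_sub (by omega) h
      _ ≤ 1 / Z := by
          rw [one_div]
          have : (0 : ℝ) ≤ (M : ℝ)⁻¹ := by positivity
          linarith
  · have : qset S Z M = ∅ := by
      refine Finset.eq_empty_of_forall_notMem fun n hn => ?_
      have := mem_qset hn
      omega
    rw [this, Finset.sum_empty]
    positivity

/-- Module NE. -/
theorem ne (hC : NcountpStmt) : NeStmt := by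
  classical
  intro S K _ hK
  set B : ℕ := 2 * K + 12 * K * K with hB
  have hB0 : 0 < B := by positivity
  obtain ⟨C, hC1, hCτ⟩ := MP_1c35f4_nt.tau_le_rpow (1 / (2 * (B : ℝ))) (by positivity)
  set C' : ℝ := 8 * C * (1 + 48 * K ^ 2) ^ 2 with hC'
  refine ⟨max 2 ⌈2 * C'⌉₊, fun Z hZ => ?_⟩
  have hZ2 : 2 ≤ Z := (le_max_left _ _).trans hZ
  have hZC : 2 * C' ≤ Z := (Nat.le_ceil _).trans (by exact_mod_cast (le_max_right _ _).trans hZ)
  have hZR : (2 : ℝ) ≤ Z := by exact_mod_cast hZ2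
  have hZ0 : (0 : ℝ) < Z := by linarith
  set X : ℕ := XX K Z with hX
  set Nn : Finset ℕ := qset S Z (Z ^ K) with hNn
  set U : Finset ℕ := qset S (U1 K Z) (U2 K Z) with hU
  set N : ℕ := U2 K Z with hN
  set D : ℝ := C * (Z : ℝ) ^ (1 / 2 : ℝ) with hD
  have hD0 : 0 ≤ D := by positivity
  have hU1 : 1 ≤ U1 K Z := Nat.one_le_pow _ _ (by omega)
  -- the divisor bound
  have hτ : ∀ n ∈ Nn, ∀ v ∈ Nn, ∀ u ∈ U, 1 ≤ u ∧ u ≤ N ∧ 2 ≤ (n * v) * u ∧
      (((n * v) * u - 1).divisors.card : ℝ) ≤ D := by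
    intro n hn v hv u hu
    obtain ⟨hn1, hn2⟩ := mem_qset hn
    obtain ⟨hv1, hv2⟩ := mem_qset hv
    obtain ⟨hu1, hu2⟩ := mem_qset hu
    have hu3 : 1 ≤ u := by omega
    have h2 : 2 ≤ (n * v) * u := by
      calc 2 ≤ n := by omega
        _ ≤ n * v := Nat.le_mul_of_pos_right _ (by omega)
        _ ≤ (n * v) * u := Nat.le_mul_of_pos_right _ (by omega)
    refine ⟨hu3, hu2, h2, ?_⟩
    refine (hCτ _ (by omega)).trans ?_
    refine mul_le_mul_of_nonneg_left ?_ (by linarith)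
    have h3 : (((n * v) * u - 1 : ℕ) : ℝ) ≤ (Z : ℝ) ^ B := by
      have : (n * v) * u - 1 ≤ Z ^ B := by
        calc (n * v) * u - 1 ≤ (n * v) * u := Nat.sub_le _ _
          _ ≤ (Z ^ K * Z ^ K) * Z ^ (12 * K * K) :=
            Nat.mul_le_mul (Nat.mul_le_mul hn2 hv2) hu2
          _ = Z ^ B := by rw [← pow_add, ← pow_add, hB]; ring_nf
      exact_mod_cast this
    calc (((n * v) * u - 1 : ℕ) : ℝ) ^ (1 / (2 * (B : ℝ)))
        ≤ ((Z : ℝ) ^ B) ^ (1 / (2 * (B : ℝ))) :=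
          Real.rpow_le_rpow (Nat.cast_nonneg _) h3 (by positivity)
      _ = (Z : ℝ) ^ (1 / 2 : ℝ) := by
          rw [← Real.rpow_natCast, ← Real.rpow_mul hZ0.le]
          congr 1
          have : (B : ℝ) ≠ 0 := by exact_mod_cast hB0.ne'
          field_simp
  -- one fibre
  set P := (TT S K Z ×ˢ TT S K Z).filter (fun q => q.1.1 = q.2.1 ∧ q.1.2.1 = q.2.2.1 ∧
      q.1.2.2.1 ≠ q.2.2.2.1 ∧ Coinc q.1 q.2) with hP
  set f : (ℕ × ℕ × ℕ × ℕ) × (ℕ × ℕ × ℕ × ℕ) → (ℕ × ℕ) × (ℕ × ℕ) :=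
    fun q => ((q.1.1, q.1.2.1), (q.1.2.2.1, q.2.2.2.1)) with hf
  set I : Finset ((ℕ × ℕ) × (ℕ × ℕ)) :=
    (Nn ×ˢ Nn) ×ˢ ((U ×ˢ U).filter (fun w => w.1 ≠ w.2)) with hI
  have hmem : ∀ q ∈ P, f q ∈ I := by
    intro q hq
    rw [hP, Finset.mem_filter, Finset.mem_product, TT, Finset.mem_filter, Finset.mem_filter] at hq
    simp only [Finset.mem_product] at hq
    simp only [hI, hf, Finset.mem_product, Finset.mem_filter]
    tauto
  have hfib : ∀ i ∈ I, ((P.filter (fun q => f q = i)).card : ℝ) ≤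
      4 * X * ((1 / ((i.1.1 : ℝ) ^ 2)) * (1 / ((i.1.2 : ℝ) ^ 2)) *
        ((((i.1.1 * i.1.2 * i.2.1 - 1).gcd (i.1.1 * i.1.2 * i.2.2 - 1) : ℕ) : ℝ) /
          (i.2.1 * i.2.2))) + 1 := by
    rintro ⟨⟨n, v⟩, ⟨u, u'⟩⟩ hi
    simp only [hI, Finset.mem_product, Finset.mem_filter] at hi
    obtain ⟨⟨hn, hv⟩, ⟨hu, hu'⟩, hne⟩ := hi
    obtain ⟨h1, h2, h3, -⟩ := hτ n hn v hv u hu
    obtain ⟨h1', h2', h3', -⟩ := hτ n hn v hv u' hu'
    have hn0 : 0 < n := by have := (mem_qset hn).1; omega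
    have hv0 : 0 < v := by have := (mem_qset hv).1; omega
    simp only
    set h : ℕ := n * v * u - 1 with hh1
    set h' : ℕ := n * v * u' - 1 with hh2
    have key := hC h h' X ((u : ℤ) - u') (by omega) (by omega)
    have hcard : (P.filter (fun q => f q = ((n, v), (u, u')))).card ≤
        ((Finset.Icc 1 X ×ˢ Finset.Icc 1 X).filter (fun t : ℕ × ℕ =>
          (t.1 * h : ℤ) - t.2 * h' = (u : ℤ) - u' ∧ t.1 * h ≤ X)).card := by
      refine Finset.card_le_card_of_injOn (fun q => (q.1.2.2.2, q.2.2.2.2)) ?_ ?_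
      · rintro ⟨⟨n1, v1, u1, x1⟩, ⟨n2, v2, u2, x2⟩⟩ hq
        rw [Finset.mem_coe, Finset.mem_filter, hP, Finset.mem_filter, Finset.mem_product, TT,
          Finset.mem_filter, Finset.mem_filter] at hq
        simp only [Finset.mem_product, hf, Coinc, hh, Prod.mk.injEq] at hq
        obtain ⟨⟨⟨⟨⟨-, -, -, hx1⟩, hle⟩, ⟨-, -, -, hx2⟩, -⟩, e1, e2, -, hco⟩, ⟨rfl, rfl⟩, rfl, rfl⟩ := hq
        subst e1 e2
        rw [Finset.mem_coe, Finset.mem_filter, Finset.mem_product, Finset.mem_Icc, Finset.mem_Icc]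
        obtain ⟨hx1a, hx1b⟩ := mem_qset hx1
        obtain ⟨hx2a, hx2b⟩ := mem_qset hx2
        refine ⟨⟨⟨hx1a, hx1b⟩, ⟨hx2a, hx2b⟩⟩, ?_, hle⟩
        have : ((x1 * h + (u2 + v1) : ℕ) : ℤ) = ((x2 * h' + (u1 + v1) : ℕ) : ℤ) := by
          exact_mod_cast hco
        push_cast at this
        simp only
        linarith
      · rintro ⟨⟨n1, v1, u1, x1⟩, ⟨n2, v2, u2, x2⟩⟩ hq ⟨⟨n3, v3, u3, x3⟩, ⟨n4, v4, u4, x4⟩⟩ hq' he
        rw [Finset.mem_coe, Finset.mem_filter, hP, Finset.mem_filter] at hq hq'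
        simp only [hf, Prod.mk.injEq] at hq hq' he
        obtain ⟨⟨-, e1, e2, -⟩, ⟨e3, e4⟩, e5, e6⟩ := hq
        obtain ⟨⟨-, e1', e2', -⟩, ⟨e3', e4'⟩, e5', e6'⟩ := hq'
        simp only [Prod.mk.injEq]
        omega
    refine le_trans (by exact_mod_cast hcard) (key.trans ?_)
    have hnR : (0 : ℝ) < n := by exact_mod_cast hn0
    have hvR : (0 : ℝ) < v := by exact_mod_cast hv0
    have huR : (0 : ℝ) < u := by exact_mod_cast h1
    have huR' : (0 : ℝ) < u' := by exact_mod_cast h1'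
    have hhR : (n : ℝ) * v * u / 2 ≤ h := by
      have e : ((h + 1 : ℕ) : ℝ) = (n : ℝ) * v * u := by
        have : h + 1 = n * v * u := by omega
        rw [this]; push_cast; ring
      have e2 : (2 : ℝ) ≤ (n : ℝ) * v * u := by exact_mod_cast h3
      push_cast at e
      linarith
    have hhR' : (n : ℝ) * v * u' / 2 ≤ h' := by
      have e : ((h' + 1 : ℕ) : ℝ) = (n : ℝ) * v * u' := by
        have : h' + 1 = n * v * u' := by omega
        rw [this]; push_cast; ring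
      have e2 : (2 : ℝ) ≤ (n : ℝ) * v * u' := by exact_mod_cast h3'
      push_cast at e
      linarith
    have hpos : 0 < (n : ℝ) * v * u / 2 := by positivity
    have hpos' : 0 < (n : ℝ) * v * u' / 2 := by positivity
    have hprod : ((n : ℝ) * v * u / 2) * ((n : ℝ) * v * u' / 2) ≤ (h : ℝ) * h' :=
      mul_le_mul hhR hhR' hpos'.le (hpos.le.trans hhR)
    have hbd : (X : ℝ) * (h.gcd h' : ℕ) / (h * h') ≤
        4 * X * ((1 / ((n : ℝ) ^ 2)) * (1 / ((v : ℝ) ^ 2)) *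
        (((h.gcd h' : ℕ) : ℝ) / (u * u'))) := by
      calc (X : ℝ) * (h.gcd h' : ℕ) / (h * h')
          ≤ (X : ℝ) * (h.gcd h' : ℕ) / (((n : ℝ) * v * u / 2) * ((n : ℝ) * v * u' / 2)) :=
            div_le_div_of_nonneg_left (by positivity) (by positivity) hprod
        _ = _ := by
            field_simp
            ring
    linarith
  -- summation
  have hsum : (P.card : ℝ) ≤ ∑ i ∈ I, (4 * X * ((1 / ((i.1.1 : ℝ) ^ 2)) *
      (1 / ((i.1.2 : ℝ) ^ 2)) *
        ((((i.1.1 * i.1.2 * i.2.1 - 1).gcd (i.1.1 * i.1.2 * i.2.2 - 1) : ℕ) : ℝ) /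
          (i.2.1 * i.2.2))) + 1) := by
    rw [Finset.card_eq_sum_card_fiberwise (f := f) (t := I) (fun q hq => hmem q hq)]
    push_cast
    exact Finset.sum_le_sum fun i hi => hfib i hi
  have hcardI : (I.card : ℝ) ≤ X / 2 := by
    have h1 : I.card ≤ Z ^ (2 * K + 24 * K * K) := by
      calc I.card = (Nn.card * Nn.card) * ((U ×ˢ U).filter (fun w => w.1 ≠ w.2)).card := by
            rw [hI, Finset.card_product, Finset.card_product]
        _ ≤ (Z ^ K * Z ^ K) * (Z ^ (12 * K * K) * Z ^ (12 * K * K)) := by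
            refine Nat.mul_le_mul (Nat.mul_le_mul (card_qset_le _ _ _) (card_qset_le _ _ _)) ?_
            refine (Finset.card_filter_le _ _).trans ?_
            rw [Finset.card_product]
            exact Nat.mul_le_mul (card_qset_le _ _ _) (card_qset_le _ _ _)
        _ = Z ^ (2 * K + 24 * K * K) := by
            rw [← pow_add, ← pow_add, ← pow_add]
            ring_nf
    have h2 : 2 * Z ^ (2 * K + 24 * K * K) ≤ X := by
      rw [hX, XX]
      calc 2 * Z ^ (2 * K + 24 * K * K) ≤ Z * Z ^ (2 * K + 24 * K * K) :=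
            Nat.mul_le_mul_right _ hZ2
        _ = Z ^ (2 * K + 24 * K * K + 1) := by rw [pow_succ, mul_comm]
        _ ≤ _ := by
            refine Nat.pow_le_pow_right (by omega) ?_
            nlinarith [Nat.zero_le (K * K)]
    have h3 : (I.card : ℝ) ≤ ((Z ^ (2 * K + 24 * K * K) : ℕ) : ℝ) := by exact_mod_cast h1
    have h4 : 2 * ((Z ^ (2 * K + 24 * K * K) : ℕ) : ℝ) ≤ X := by exact_mod_cast h2
    linarith
  have hmain : ∑ i ∈ I, ((1 / ((i.1.1 : ℝ) ^ 2)) * (1 / ((i.1.2 : ℝ) ^ 2)) *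
        ((((i.1.1 * i.1.2 * i.2.1 - 1).gcd (i.1.1 * i.1.2 * i.2.2 - 1) : ℕ) : ℝ) /
          (i.2.1 * i.2.2))) ≤ (1 / Z) * (1 / Z) * (2 * D * Hs N ^ 2) := by
    rw [hI, Finset.sum_product, Finset.sum_product]
    calc ∑ n ∈ Nn, ∑ v ∈ Nn, ∑ w ∈ (U ×ˢ U).filter (fun w => w.1 ≠ w.2),
          ((1 / ((n : ℝ) ^ 2)) * (1 / ((v : ℝ) ^ 2)) *
          ((((n * v * w.1 - 1).gcd (n * v * w.2 - 1) : ℕ) : ℝ) / (w.1 * w.2)))
        ≤ ∑ n ∈ Nn, ∑ v ∈ Nn, ((1 / ((n : ℝ) ^ 2)) * (1 / ((v : ℝ) ^ 2)) *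
            (2 * D * Hs N ^ 2)) := by
          refine Finset.sum_le_sum fun n hn => Finset.sum_le_sum fun v hv => ?_
          rw [← Finset.mul_sum]
          exact mul_le_mul_of_nonneg_left (sum_pairs (n * v) N U D hD0 (hτ n hn v hv))
            (by positivity)
      _ = (∑ n ∈ Nn, 1 / ((n : ℝ) ^ 2)) * (∑ v ∈ Nn, 1 / ((v : ℝ) ^ 2)) *
            (2 * D * Hs N ^ 2) := by
          rw [Finset.sum_mul_sum, Finset.sum_mul]
          exact Finset.sum_congr rfl fun n _ => by rw [Finset.sum_mul]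
      _ ≤ (1 / Z) * (1 / Z) * (2 * D * Hs N ^ 2) := by
          refine mul_le_mul_of_nonneg_right ?_ (by have := Hs_nonneg N; positivity)
          exact mul_le_mul (sum_inv_sq _ _ _ (by omega)) (sum_inv_sq _ _ _ (by omega))
            (Finset.sum_nonneg fun _ _ => by positivity) (by positivity)
  -- the harmonic sum
  have hHs : Hs N ^ 2 ≤ (1 + 48 * (K : ℝ) ^ 2) ^ 2 * (Z : ℝ) ^ (1 / 2 : ℝ) := by
    have hlog : Real.log Z ≤ 4 * (Z : ℝ) ^ (1 / 4 : ℝ) := by
      have := Real.log_le_rpow_div hZ0.le (show (0 : ℝ) < 1 / 4 by norm_num)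
      linarith
    have h4 : (1 : ℝ) ≤ (Z : ℝ) ^ (1 / 4 : ℝ) :=
      Real.one_le_rpow (by linarith) (by norm_num)
    have h1 : Hs N ≤ (1 + 48 * (K : ℝ) ^ 2) * (Z : ℝ) ^ (1 / 4 : ℝ) := by
      refine (Hs_le N).trans ?_
      have e : Real.log (N : ℝ) = (12 * K * K : ℕ) * Real.log Z := by
        rw [hN, U2]
        push_cast
        rw [Real.log_pow]
        push_cast
        ring
      rw [e]
      push_cast
      nlinarith [mul_nonneg (mul_nonneg (show (0 : ℝ) ≤ 12 by norm_num)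
        (Nat.cast_nonneg (α := ℝ) K)) (Nat.cast_nonneg (α := ℝ) K), sq_nonneg (K : ℝ),
        mul_le_mul_of_nonneg_left hlog (show (0 : ℝ) ≤ 12 * K * K by positivity)]
    calc Hs N ^ 2 ≤ ((1 + 48 * (K : ℝ) ^ 2) * (Z : ℝ) ^ (1 / 4 : ℝ)) ^ 2 :=
          pow_le_pow_left₀ (Hs_nonneg N) h1 2
      _ = _ := by
          rw [mul_pow, ← Real.rpow_natCast ((Z : ℝ) ^ (1 / 4 : ℝ)) 2, ← Real.rpow_mul hZ0.le]
          norm_num
  have hfin : 4 * (X : ℝ) * ((1 / Z) * (1 / Z) * (2 * D * Hs N ^ 2)) ≤ X / 2 := by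
    have hsq : (Z : ℝ) ^ (1 / 2 : ℝ) * (Z : ℝ) ^ (1 / 2 : ℝ) = Z := by
      rw [← Real.rpow_add hZ0]
      norm_num
    have h1 : 4 * ((1 / (Z : ℝ)) * (1 / Z) * (2 * D * Hs N ^ 2)) ≤ C' / Z := by
      calc 4 * ((1 / (Z : ℝ)) * (1 / Z) * (2 * D * Hs N ^ 2))
          ≤ 4 * ((1 / (Z : ℝ)) * (1 / Z) * (2 * D * ((1 + 48 * (K : ℝ) ^ 2) ^ 2 *
              (Z : ℝ) ^ (1 / 2 : ℝ)))) := by
            gcongr
        _ = C' * ((Z : ℝ) ^ (1 / 2 : ℝ) * (Z : ℝ) ^ (1 / 2 : ℝ)) / (Z * Z) := by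
            rw [hC', hD]
            field_simp
            ring
        _ = C' / Z := by
            rw [hsq]
            field_simp
    have h2 : C' / Z ≤ 1 / 2 := by
      rw [div_le_div_iff₀ hZ0 (by norm_num)]
      linarith
    have hX0 : (0 : ℝ) ≤ X := Nat.cast_nonneg _
    calc 4 * (X : ℝ) * ((1 / Z) * (1 / Z) * (2 * D * Hs N ^ 2))
        = (X : ℝ) * (4 * ((1 / (Z : ℝ)) * (1 / Z) * (2 * D * Hs N ^ 2))) := by ring
      _ ≤ (X : ℝ) * (1 / 2) := mul_le_mul_of_nonneg_left (h1.trans h2) hX0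
      _ = (X : ℝ) / 2 := by ring
  calc (P.card : ℝ) ≤ _ := hsum
    _ = 4 * X * ∑ i ∈ I, ((1 / ((i.1.1 : ℝ) ^ 2)) * (1 / ((i.1.2 : ℝ) ^ 2)) *
        ((((i.1.1 * i.1.2 * i.2.1 - 1).gcd (i.1.1 * i.1.2 * i.2.2 - 1) : ℕ) : ℝ) /
          (i.2.1 * i.2.2))) + I.card := by
        rw [Finset.sum_add_distrib, ← Finset.mul_sum, Finset.sum_const, nsmul_eq_mul, mul_one]
    _ ≤ 4 * X * ((1 / Z) * (1 / Z) * (2 * D * Hs N ^ 2)) + X / 2 :=
        add_le_add (mul_le_mul_of_nonneg_left hmain (by positivity)) hcardI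
    _ ≤ X := by linarith

end Pool.Agent.Lib.MP_ba0fa5_ag.H19
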